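import Mathlib
import Pool.Agent.Lib.BI39.Stmt
import Pool.Agent.Lib.BI39.Final
import Pool.Agent.Lib.BI39.Stmt2

/-!
MP_39fe65_gt, Q1 (negated form, strengthened): for every `η > 0` there is a wild
orientation-reversing involution of the 3-sphere whose modulus of continuity is less than
`exp (η t)` for all sufficiently large `t`.
-/

set_option autoImplicit false

namespace Pool.Agent.Results.MP_39fe65_gt.WildBelowExp

open Pool.Agent.BI39

/-- For every `η > 0` there is an orientation-reversing involution `J` of `S³` which is not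
conjugate to any orthogonal involution and satisfies `moc(J)(t) < exp(η t)` for all large `t`. -/
theorem result :
    ∀ η : ℝ, 0 < η → ∃ J : Sph ≃ₜ Sph, Invol J ∧ OrientationReversing J ∧ Wild J ∧
      ∃ T : ℝ, ∀ t : ℝ, T ≤ t → mocOf J t < ENNReal.ofReal (Real.exp (η * t)) := by
  intro η hη
  obtain ⟨J, C, h1, h2, h3, h4⟩ := main (η / 2) (by positivity)
  refine ⟨J, h1, orRev_of_orRev J h2, wild_of_isWild J h3, max 1 (2 * (|C| + 1) / η),
    fun t ht => ?_⟩
  have ht1 : 1 ≤ t := le_trans (le_max_left _ _) ht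
  have ht2 : 2 * (|C| + 1) / η ≤ t := le_trans (le_max_right _ _) ht
  refine lt_of_le_of_lt (h4 t ht1) ?_
  refine (ENNReal.ofReal_lt_ofReal_iff (Real.exp_pos _)).2 ?_
  have h5 : |C| + 1 ≤ η / 2 * t := by
    rw [div_le_iff₀ hη] at ht2
    linarith
  have h6 : C < Real.exp (η / 2 * t) := by
    have h7 : η / 2 * t + 1 ≤ Real.exp (η / 2 * t) := Real.add_one_le_exp _
    have h8 : C ≤ |C| := le_abs_self C
    linarith
  have h9 : Real.exp (η * t) = Real.exp (η / 2 * t) * Real.exp (η / 2 * t) := by
    rw [← Real.exp_add]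
    congr 1
    ring
  rw [h9]
  exact mul_lt_mul_of_pos_right h6 (Real.exp_pos _)

end Pool.Agent.Results.MP_39fe65_gt.WildBelowExp
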